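import Mathlib

/-!
# MP_750254_mp: `Σ₁` and the spectrum can have different numbers of components
-/

set_option autoImplicit false

open Set
open scoped InnerProductSpace ComplexConjugate

namespace Pool.Agent.Results.MP_750254_mp.ComponentsDiffer

/-! ## Definitions -/

/-- A rooted tree, given by its parent map: every vertex reaches the root by iterating `parent`. -/
structure RootedTree (V : Type) where
  root : V
  parent : V → V
  parent_root : parent root = root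
  reach : ∀ x, ∃ n : ℕ, parent^[n] x = root

/-- `y` is a child (forward neighbour) of `x`. -/
def RootedTree.IsChild {V : Type} (Tr : RootedTree V) (x y : V) : Prop :=
  y ≠ Tr.root ∧ Tr.parent y = x

/-- Adjacency in the tree. -/
def RootedTree.Adj {V : Type} (Tr : RootedTree V) (x y : V) : Prop :=
  Tr.IsChild x y ∨ Tr.IsChild y x

/-- The three conditions on the substitution matrix: row sums at least two, positive diagonal,
primitive. -/
def Admissible {A : Type} [Fintype A] [DecidableEq A] (M : Matrix A A ℕ) : Prop :=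
  (∀ j, 2 ≤ ∑ k, M j k) ∧ (∀ j, 1 ≤ M j j) ∧ ∃ n : ℕ, ∀ j k, 0 < (M ^ n) j k

/-- The tree with the labelling `a` is the tree `𝕋(M,j)`: the root has label `j` and every vertex
of label `k` has exactly `M k l` children of label `l`. -/
def IsTreeOf {A V : Type} (Tr : RootedTree V) (M : Matrix A A ℕ) (j : A) (a : V → A) : Prop :=
  a Tr.root = j ∧ ∀ x l, {y | Tr.IsChild x y ∧ a y = l}.encard = M (a x) l

/-- The Hilbert space `ℓ²(V)`. -/
abbrev l2 (V : Type) : Type := lp (fun _ : V => ℂ) 2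

/-- `T` is a label invariant operator (for the constant weight `ν = 1`) with hopping terms `t`,
potential `w` and coefficients `m_{j,k}`, `m_j`. -/
def IsLabelInvariant {A V : Type} (Tr : RootedTree V) (M : Matrix A A ℕ) (a : V → A)
    (mm : A → A → ℝ) (mv : A → ℝ) (T : l2 V →L[ℂ] l2 V) : Prop :=
  ∃ (t : V → V → ℂ) (w : V → ℝ),
    (∀ x y, t x y ≠ 0 ↔ Tr.Adj x y) ∧ (∀ x y, t x y = conj (t y x)) ∧
    (∀ x y, Tr.Adj x y → ‖t x y‖ ^ 2 * M (a x) (a y) = mm (a x) (a y)) ∧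
    (∀ x, w x = mv (a x)) ∧
    ∀ (φ : l2 V) (x : V), (T φ) x = ∑' y, t x y * φ y + w x * φ x

/-- The set `Σ₁`. -/
def Sigma1 {A : Type} [Fintype A] (mm : A → A → ℝ) (mv : A → ℝ) : Set ℝ :=
  {E | ∃ ξ : A → ℂ, (∀ j, 0 < (ξ j).im) ∧
    ∀ j, ξ j * (E - mv j + ∑ k, mm j k * ξ k) + 1 = 0}

/-! ## The shifts -/

/-- The Hilbert space. -/
abbrev HH : Type := l2 (List (Fin 2))

/-- The unit vectors. -/
noncomputable def dl (x : List (Fin 2)) : HH := lp.single 2 x (1 : ℂ)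

lemma dl_apply (x y : List (Fin 2)) : (dl x) y = if y = x then 1 else 0 := by
  unfold dl
  rw [lp.coeFn_single, Pi.single_apply]

lemma inner_dl (x : List (Fin 2)) (φ : HH) : ⟪dl x, φ⟫_ℂ = φ x := by
  unfold dl
  rw [lp.inner_single_left]
  simp

lemma orth_dl : Orthonormal ℂ dl := by
  rw [orthonormal_iff_ite]
  intro i j
  rw [inner_dl, dl_apply]

lemma orth_cons (b : Fin 2) : Orthonormal ℂ fun x => dl (b :: x) :=
  orth_dl.comp _ fun _ _ h => List.cons_injective h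

/-- The shift isometries. -/
noncomputable def SI (b : Fin 2) : HH →ₗᵢ[ℂ] HH := (orth_cons b).orthogonalFamily.linearIsometry

/-- The shift isometries as operators. -/
noncomputable def S (b : Fin 2) : HH →L[ℂ] HH := (SI b).toContinuousLinearMap

/-- Their adjoints. -/
noncomputable def Sa (b : Fin 2) : HH →L[ℂ] HH := ContinuousLinearMap.adjoint (S b)

lemma S_dl (b : Fin 2) (x : List (Fin 2)) : S b (dl x) = dl (b :: x) := by
  unfold S SI
  change (orth_cons b).orthogonalFamily.linearIsometry (dl x) = _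
  unfold dl
  rw [OrthogonalFamily.linearIsometry_apply_single]
  simp [LinearIsometry.toSpanSingleton]

lemma Sa_apply (b : Fin 2) (φ : HH) (x : List (Fin 2)) : (Sa b φ) x = φ (b :: x) := by
  rw [← inner_dl, Sa, ContinuousLinearMap.adjoint_inner_right, S_dl, inner_dl]

lemma Sa_dl_cons (a b : Fin 2) (x : List (Fin 2)) :
    Sa b (dl (a :: x)) = if a = b then dl x else 0 := by
  ext y
  rw [Sa_apply, dl_apply]
  by_cases h : a = b
  · subst h
    simp [dl_apply]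
  · have h' : ¬ (b :: y = a :: x) := by
      intro h2
      exact h (List.cons.inj h2).1.symm
    rw [if_neg h', if_neg h]
    rfl

lemma Sa_dl_nil (b : Fin 2) : Sa b (dl []) = 0 := by
  ext y
  rw [Sa_apply, dl_apply]
  simp

lemma S_apply_cons (a b : Fin 2) (φ : HH) (x : List (Fin 2)) :
    (S b φ) (a :: x) = if a = b then φ x else 0 := by
  rw [← inner_dl, ← ContinuousLinearMap.adjoint_inner_left]
  change ⟪Sa b (dl (a :: x)), φ⟫_ℂ = _
  rw [Sa_dl_cons]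
  split_ifs
  · rw [inner_dl]
  · simp

lemma S_apply_nil (b : Fin 2) (φ : HH) : (S b φ) [] = 0 := by
  rw [← inner_dl, ← ContinuousLinearMap.adjoint_inner_left]
  change ⟪Sa b (dl []), φ⟫_ℂ = _
  rw [Sa_dl_nil, inner_zero_left]

lemma Sa_S (a b : Fin 2) (φ : HH) : Sa a (S b φ) = if a = b then φ else 0 := by
  ext x
  rw [Sa_apply, S_apply_cons]
  split_ifs <;> rfl

lemma decomp (φ : HH) : φ = (φ []) • dl [] + ∑ b, S b (Sa b φ) := by
  ext x
  cases x with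
  | nil =>
    simp only [Fin.sum_univ_two, lp.coeFn_add, Pi.add_apply, lp.coeFn_smul, Pi.smul_apply,
      S_apply_nil, dl_apply]
    simp
  | cons a x =>
    simp only [Fin.sum_univ_two, lp.coeFn_add, Pi.add_apply, lp.coeFn_smul, Pi.smul_apply,
      S_apply_cons, Sa_apply, dl_apply]
    fin_cases a <;> simp

lemma norm_S (b : Fin 2) (φ : HH) : ‖S b φ‖ = ‖φ‖ := (SI b).norm_map φ

lemma norm_sq_decomp (φ : HH) : ‖φ‖ ^ 2 = ‖φ []‖ ^ 2 + ∑ b, ‖Sa b φ‖ ^ 2 := by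
  have h : (⟪φ, φ⟫_ℂ) = ⟪φ, (φ []) • dl [] + ∑ b, S b (Sa b φ)⟫_ℂ := by
    rw [← decomp φ]
  rw [inner_add_right, inner_smul_right, inner_sum, ← inner_conj_symm φ (dl []), inner_dl,
    Complex.mul_conj, inner_self_eq_norm_sq_to_K] at h
  have h2 : ∀ b, ⟪φ, S b (Sa b φ)⟫_ℂ = ((‖Sa b φ‖ ^ 2 : ℝ) : ℂ) := by
    intro b
    rw [← ContinuousLinearMap.adjoint_inner_left]
    change ⟪Sa b φ, Sa b φ⟫_ℂ = _
    rw [inner_self_eq_norm_sq_to_K]
    push_cast
    rfl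
  simp only [h2, Complex.normSq_eq_norm_sq] at h
  have h3 : ((‖φ‖ ^ 2 : ℝ) : ℂ) = ((‖φ []‖ ^ 2 + ∑ b, ‖Sa b φ‖ ^ 2 : ℝ) : ℂ) := by
    push_cast
    push_cast at h
    exact h
  exact_mod_cast h3

/-! ## The operator -/

/-- The values of the potential on the two labels. -/
noncomputable def mv : Fin 2 → ℝ := ![√2, -√2]

/-- The projection onto the root. -/
noncomputable def P : HH →L[ℂ] HH := (innerSL ℂ (dl [])).smulRight (dl [])

lemma P_apply (φ : HH) : P φ = (φ []) • dl [] := by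
  simp [P, inner_dl]

/-- The operator. -/
noncomputable def T : HH →L[ℂ] HH :=
  ∑ b, (S b + Sa b + ((mv b : ℝ) : ℂ) • (S b * Sa b)) + ((mv 0 : ℝ) : ℂ) • P

lemma T_eq (φ : HH) : T φ = ∑ b, (S b φ + Sa b φ + ((mv b : ℝ) : ℂ) • S b (Sa b φ)) +
    ((mv 0 : ℝ) : ℂ) • (φ []) • dl [] := by
  simp only [T, Fin.sum_univ_two, add_apply, smul_apply, P_apply,
    mul_apply_eq_comp]

lemma adj_Sa (b : Fin 2) : ContinuousLinearMap.adjoint (Sa b) = S b :=
  ContinuousLinearMap.adjoint_adjoint _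

lemma inner_S (b : Fin 2) (φ ψ : HH) : ⟪S b φ, ψ⟫_ℂ = ⟪φ, Sa b ψ⟫_ℂ := by
  rw [Sa, ContinuousLinearMap.adjoint_inner_right]

lemma inner_Sa (b : Fin 2) (φ ψ : HH) : ⟪Sa b φ, ψ⟫_ℂ = ⟪φ, S b ψ⟫_ℂ := by
  rw [Sa, ContinuousLinearMap.adjoint_inner_left]

lemma T_symm (φ ψ : HH) : ⟪T φ, ψ⟫_ℂ = ⟪φ, T ψ⟫_ℂ := by
  have h1 : ∀ b, ⟪S b (Sa b φ), ψ⟫_ℂ = ⟪φ, S b (Sa b ψ)⟫_ℂ := by
    intro b
    rw [inner_S, inner_Sa]
  have h2 : ⟪dl [], ψ⟫_ℂ = ψ [] := inner_dl _ _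
  have h3 : ⟪φ, dl []⟫_ℂ = conj (φ []) := by rw [← inner_conj_symm, inner_dl]
  rw [T_eq, T_eq]
  simp only [Fin.sum_univ_two, inner_add_left, inner_add_right, inner_smul_left,
    inner_smul_right, inner_S, inner_Sa, h1, h2, h3, Complex.conj_ofReal]
  ring

lemma T_sa : IsSelfAdjoint T := by
  rw [ContinuousLinearMap.isSelfAdjoint_iff_isSymmetric]
  exact T_symm

/-- The edge of the spectrum. -/
noncomputable def cc : ℝ := 3 * √6 / 2

lemma quad (φ : HH) : (⟪φ, T φ⟫_ℂ).re = 2 * ∑ b, (⟪φ, Sa b φ⟫_ℂ).re +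
    ∑ b, mv b * ‖Sa b φ‖ ^ 2 + mv 0 * ‖φ []‖ ^ 2 := by
  have h3 : ⟪φ, dl []⟫_ℂ = conj (φ []) := by rw [← inner_conj_symm, inner_dl]
  have h4 : ∀ b, ⟪φ, S b (Sa b φ)⟫_ℂ = ((‖Sa b φ‖ ^ 2 : ℝ) : ℂ) := by
    intro b
    rw [← inner_Sa, inner_self_eq_norm_sq_to_K]
    push_cast
    rfl
  have h5 : ∀ b, ⟪φ, S b φ⟫_ℂ = conj ⟪φ, Sa b φ⟫_ℂ := by
    intro b
    rw [inner_conj_symm, inner_Sa]
  have h6 : φ [] * conj (φ []) = ((‖φ []‖ ^ 2 : ℝ) : ℂ) := by
    rw [Complex.mul_conj, Complex.normSq_eq_norm_sq]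
  rw [T_eq]
  simp only [Fin.sum_univ_two, inner_add_right, inner_smul_right, h3, h4, h5, h6]
  simp only [Complex.add_re, Complex.conj_re, Complex.re_ofReal_mul, Complex.ofReal_re]
  ring

/-- `|2 Re ⟨φ, S_b^* φ⟩| ≤ γ ‖φ‖² + ‖S_b^* φ‖² / γ`. -/
lemma cauchy (b : Fin 2) (φ : HH) (γ : ℝ) (hγ : 0 < γ) :
    |2 * (⟪φ, Sa b φ⟫_ℂ).re| ≤ γ * ‖φ‖ ^ 2 + γ⁻¹ * ‖Sa b φ‖ ^ 2 := by
  have h1 : |(⟪φ, Sa b φ⟫_ℂ).re| ≤ ‖φ‖ * ‖Sa b φ‖ :=
    (Complex.abs_re_le_norm _).trans (norm_inner_le_norm _ _)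
  rw [abs_mul, abs_two]
  have h2 : 0 ≤ γ⁻¹ * (γ * ‖φ‖ - ‖Sa b φ‖) ^ 2 := by positivity
  have h3 : γ⁻¹ * (γ * ‖φ‖ - ‖Sa b φ‖) ^ 2 =
      γ * ‖φ‖ ^ 2 - 2 * (‖φ‖ * ‖Sa b φ‖) + γ⁻¹ * ‖Sa b φ‖ ^ 2 := by
    field_simp
    ring
  linarith

lemma sqrt_facts : √6 ^ 2 = 6 ∧ √2 ^ 2 = 2 ∧ 0 < √2 ∧ √2 < √6 := by
  refine ⟨Real.sq_sqrt (by norm_num), Real.sq_sqrt (by norm_num), by positivity, ?_⟩
  exact Real.sqrt_lt_sqrt (by norm_num) (by norm_num)

lemma quad_bound (φ : HH) : |(⟪φ, T φ⟫_ℂ).re| ≤ cc * ‖φ‖ ^ 2 := by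
  obtain ⟨h6, h2, h2p, h26⟩ := sqrt_facts
  have hd := norm_sq_decomp φ
  have hm : 0 < √6 - √2 := by linarith
  have hp : 0 < √6 + √2 := by linarith
  have hprod : (√6 - √2) * (√6 + √2) = 4 := by ring_nf; rw [h6, h2]; norm_num
  have hi1 : (√6 - √2)⁻¹ = (√6 + √2) / 4 := by
    rw [inv_eq_iff_eq_inv, inv_div, eq_div_iff hp.ne', hprod]
  have hi2 : (√6 + √2)⁻¹ = (√6 - √2) / 4 := by
    rw [inv_eq_iff_eq_inv, inv_div, eq_div_iff hm.ne', mul_comm, hprod]
  rw [quad]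
  simp only [Fin.sum_univ_two] at hd ⊢
  have hmv0 : mv 0 = √2 := rfl
  have hmv1 : mv 1 = -√2 := rfl
  rw [hmv0, hmv1]
  have e1 := cauchy 0 φ (√6 - √2)⁻¹ (by positivity)
  have e2 := cauchy 1 φ (√6 + √2)⁻¹ (by positivity)
  have e3 := cauchy 0 φ (√6 + √2)⁻¹ (by positivity)
  have e4 := cauchy 1 φ (√6 - √2)⁻¹ (by positivity)
  rw [inv_inv] at e1 e2 e3 e4
  rw [hi1] at e1 e4
  rw [hi2] at e2 e3
  rw [abs_le] at e1 e2 e3 e4 ⊢
  have n0 := sq_nonneg ‖φ []‖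
  unfold cc
  constructor
  · nlinarith [mul_nonneg hp.le n0]
  · nlinarith [mul_nonneg hm.le n0]

lemma spec_bound {z : ℂ} (hz : z ∈ spectrum ℂ T) : ∃ E : ℝ, z = E ∧ |E| ≤ cc := by
  have h1 := T_sa.mem_spectrum_eq_re hz
  refine ⟨z.re, h1, ?_⟩
  rw [h1] at hz
  obtain ⟨E, hE⟩ : ∃ E : ℝ, E = z.re := ⟨_, rfl⟩
  rw [← hE] at hz ⊢
  by_contra hcon
  push Not at hcon
  rw [spectrum.mem_iff] at hz
  apply hz
  have hc : 0 < |E| - cc := by linarith
  refine ContinuousLinearMap.isUnit_of_forall_le_norm_inner_map _ (c := ⟨|E| - cc, hc.le⟩)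
    (by exact hc) ?_
  intro φ
  have h3 : ⟪(algebraMap ℂ (HH →L[ℂ] HH) (E : ℂ) - T) φ, φ⟫_ℂ =
      ((E * ‖φ‖ ^ 2 : ℝ) : ℂ) - ⟪φ, T φ⟫_ℂ := by
    rw [Algebra.algebraMap_eq_smul_one, sub_apply, smul_apply, one_apply_eq_self, inner_sub_left,
      T_symm, inner_smul_left, Complex.conj_ofReal, inner_self_eq_norm_sq_to_K]
    push_cast
    rfl
  rw [h3]
  refine le_trans ?_ (Complex.abs_re_le_norm _)
  rw [Complex.sub_re, Complex.ofReal_re]
  have h4 := quad_bound φ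
  have h5 : |E * ‖φ‖ ^ 2| ≤ |E * ‖φ‖ ^ 2 - (⟪φ, T φ⟫_ℂ).re| + |(⟪φ, T φ⟫_ℂ).re| := by
    have := abs_sub_abs_le_abs_sub (E * ‖φ‖ ^ 2) (⟪φ, T φ⟫_ℂ).re
    linarith
  rw [abs_mul, abs_of_nonneg (sq_nonneg ‖φ‖)] at h5
  change ‖φ‖ ^ 2 * (|E| - cc) ≤ _
  nlinarith

/-! ## Approximate eigenvectors -/

lemma Sa_nil (b : Fin 2) : Sa b (dl []) = 0 := Sa_dl_nil b

lemma weyl (E : ℝ) (ξ : Fin 2 → ℂ) (h1 : ∑ b, ‖ξ b‖ ^ 2 = 1)
    (h2 : ∀ b, ξ b * (E - mv b + ∑ k, ξ k) + 1 = 0) : (E : ℂ) ∈ spectrum ℂ T := by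
  obtain ⟨X, hX⟩ : ∃ X : HH →L[ℂ] HH, X = ∑ b, (-ξ b) • S b := ⟨_, rfl⟩
  have hXa : ∀ φ, X φ = (-ξ 0) • S 0 φ + (-ξ 1) • S 1 φ := by
    intro φ
    rw [hX]
    simp only [Fin.sum_univ_two, add_apply, smul_apply]
  have hSX : ∀ b φ, Sa b (X φ) = (-ξ b) • φ := by
    intro b φ
    rw [hXa, map_add, map_smul, map_smul, Sa_S, Sa_S]
    fin_cases b <;> simp
  have hXn : ∀ φ, X φ [] = 0 := by
    intro φ
    rw [hXa, lp.coeFn_add, Pi.add_apply, lp.coeFn_smul, Pi.smul_apply, lp.coeFn_smul,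
      Pi.smul_apply, S_apply_nil, S_apply_nil]
    simp
  have hXnorm : ∀ φ, ‖X φ‖ ^ 2 = ‖φ‖ ^ 2 := by
    intro φ
    rw [norm_sq_decomp, hXn]
    simp only [hSX, norm_smul, norm_neg, mul_pow]
    rw [← Finset.sum_mul, h1]
    simp
  -- the sequence
  let u : ℕ → HH := fun n => (X ^ n) (dl [])
  let Φ : ℕ → HH := fun N => ∑ n ∈ Finset.range N, u n
  have hu : ∀ n, ‖u n‖ ^ 2 = 1 := by
    intro n
    induction n with
    | zero =>
      change ‖dl []‖ ^ 2 = 1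
      rw [orth_dl.1 [], one_pow]
    | succ n ih =>
      have : u (n + 1) = X (u n) := by
        simp only [u, pow_succ', mul_apply_eq_comp]
      rw [this, hXnorm, ih]
  have hΦ : ∀ N, Φ (N + 1) = dl [] + X (Φ N) := by
    intro N
    simp only [Φ]
    rw [Finset.sum_range_succ', map_sum, add_comm]
    congr 1
    refine Finset.sum_congr rfl fun n _ => ?_
    simp only [u, pow_succ', mul_apply_eq_comp]
  have hΦn : ∀ N, ‖Φ N‖ ^ 2 = N := by
    intro N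
    induction N with
    | zero => simp [Φ]
    | succ N ih =>
      rw [hΦ, norm_sq_decomp]
      have h3 : (dl [] + X (Φ N)) [] = 1 := by
        rw [lp.coeFn_add, Pi.add_apply, hXn, dl_apply]
        simp
      rw [h3]
      simp only [map_add, Sa_nil, zero_add, hSX, norm_smul, norm_neg, mul_pow]
      rw [← Finset.sum_mul, h1, ih]
      push_cast
      simp
      ring
  obtain ⟨σ, hσ⟩ : ∃ σ : ℂ, σ = ∑ k, ξ k := ⟨_, rfl⟩
  rw [← hσ] at h2
  have hT : ∀ N, T (Φ (N + 1)) - (E : ℂ) • Φ (N + 1) =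
      (S 0 (u N) + S 1 (u N)) + σ • u N + (-σ + (mv 0 : ℂ) - E) • dl [] := by
    intro N
    have h3 : u N = Φ (N + 1) - Φ N := by
      simp only [Φ, Finset.sum_range_succ, add_sub_cancel_left]
    have h4 : (Φ (N + 1)) [] = 1 := by
      rw [hΦ, lp.coeFn_add, Pi.add_apply, hXn, dl_apply]
      simp
    have h5 : ∀ b, Sa b (Φ (N + 1)) = (-ξ b) • Φ N := by
      intro b
      rw [hΦ, map_add, Sa_nil, zero_add, hSX]
    rw [T_eq, h4]
    simp only [Fin.sum_univ_two, h5, map_smul]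
    have h6 := h2 0
    have h7 := h2 1
    have hE : (E : ℂ) • Φ (N + 1) = (E : ℂ) • dl [] + (E : ℂ) • X (Φ N) := by
      rw [hΦ, smul_add]
    have h8 : Φ (N + 1) = dl [] + X (Φ N) := hΦ N
    have h9 : X (Φ N) = (-ξ 0) • S 0 (Φ N) + (-ξ 1) • S 1 (Φ N) := hXa _
    have h10 : u N = dl [] + ((-ξ 0) • S 0 (Φ N) + (-ξ 1) • S 1 (Φ N)) - Φ N := by
      rw [h3, h8, h9]
    have h11 : S 0 (u N) + S 1 (u N) = S 0 (Φ (N + 1)) + S 1 (Φ (N + 1)) -
        (S 0 (Φ N) + S 1 (Φ N)) := by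
      rw [h3, map_sub, map_sub]
      abel
    rw [h11, hE, h9, h10]
    rw [Fin.sum_univ_two] at hσ
    have hc0 : ξ 0 * (mv 0 : ℂ) - ξ 0 * E = 1 + ξ 0 * σ := by linear_combination -h6
    have hc1 : ξ 1 * (mv 1 : ℂ) - ξ 1 * E = 1 + ξ 1 * σ := by linear_combination -h7
    generalize S 0 (Φ (N + 1)) = a0
    generalize S 1 (Φ (N + 1)) = a1
    generalize S 0 (Φ N) = A
    generalize S 1 (Φ N) = B
    generalize Φ N = F
    generalize dl [] = D
    linear_combination (norm := module) (-1 : ℂ) • hc0 • A - hc1 • B + hσ • F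
  have hbd : ∀ N, ‖T (Φ (N + 1)) - (E : ℂ) • Φ (N + 1)‖ ≤ 2 + ‖σ‖ + ‖-σ + (mv 0 : ℂ) - E‖ := by
    intro N
    have h3 : ‖u N‖ = 1 := by
      have := hu N
      have h4 := norm_nonneg (u N)
      nlinarith
    rw [hT]
    refine (norm_add_le _ _).trans ?_
    refine add_le_add ((norm_add_le _ _).trans (add_le_add ((norm_add_le _ _).trans ?_) ?_)) ?_
    · rw [norm_S, norm_S, h3]
      norm_num
    · rw [norm_smul, h3, mul_one]
    · rw [norm_smul, orth_dl.1 [], mul_one]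
  -- conclusion
  rw [spectrum.mem_iff]
  intro hunit
  obtain ⟨R, hR⟩ := hunit
  obtain ⟨C, hC⟩ : ∃ C : ℝ, C = 2 + ‖σ‖ + ‖-σ + (mv 0 : ℂ) - E‖ := ⟨_, rfl⟩
  rw [← hC] at hbd
  have hC0 : 0 ≤ C := by rw [hC]; positivity
  have h3 : ∀ N : ℕ, ((N : ℝ) + 1) ≤ (‖((R⁻¹ : (HH →L[ℂ] HH)ˣ) : HH →L[ℂ] HH)‖ * C) ^ 2 := by
    intro N
    have h4 : ((R⁻¹ : (HH →L[ℂ] HH)ˣ) : HH →L[ℂ] HH) ((R : HH →L[ℂ] HH) (Φ (N + 1))) =
        Φ (N + 1) := by
      rw [← mul_apply_eq_comp, Units.inv_mul, one_apply_eq_self]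
    have h5 : (R : HH →L[ℂ] HH) (Φ (N + 1)) = -(T (Φ (N + 1)) - (E : ℂ) • Φ (N + 1)) := by
      rw [hR, Algebra.algebraMap_eq_smul_one, sub_apply, smul_apply, one_apply_eq_self]
      abel
    have h6 : ‖Φ (N + 1)‖ ≤ ‖((R⁻¹ : (HH →L[ℂ] HH)ˣ) : HH →L[ℂ] HH)‖ * C := by
      rw [← h4]
      refine (ContinuousLinearMap.le_opNorm _ _).trans ?_
      rw [h5, norm_neg]
      exact mul_le_mul_of_nonneg_left (hbd N) (norm_nonneg _)
    have h7 := hΦn (N + 1)
    push_cast at h7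
    rw [← h7]
    exact pow_le_pow_left₀ (norm_nonneg _) h6 2
  obtain ⟨N, hN⟩ := exists_nat_gt ((‖((R⁻¹ : (HH →L[ℂ] HH)ˣ) : HH →L[ℂ] HH)‖ * C) ^ 2)
  have := h3 N
  linarith

/-! ## The set `Σ₁` -/

/-- The coefficients `m_{j,k}`. -/
def mm : Fin 2 → Fin 2 → ℝ := fun _ _ => 1

lemma cc_pos : 0 < cc := by
  unfold cc
  positivity

lemma cc_sq : cc ^ 2 = 27 / 2 := by
  unfold cc
  rw [div_pow, mul_pow, sqrt_facts.1]
  norm_num

lemma mem_iff (E : ℝ) : E ∈ Sigma1 mm mv ↔ ∃ ξ : Fin 2 → ℂ, (∀ j, 0 < (ξ j).im) ∧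
    ∀ j, ξ j * (E - mv j + ∑ k, ξ k) + 1 = 0 := by
  unfold Sigma1 mm
  simp

lemma sq2 : ((√2 : ℝ) : ℂ) ^ 2 = 2 := by
  have := sqrt_facts.2.1
  exact_mod_cast this

lemma real_ineq {E : ℝ} {u : ℂ} (hpos : 0 < u.im) (hcub : u ^ 3 - E * u ^ 2 + 2 * E = 0) :
    E ≠ 0 ∧ E ^ 2 < 27 / 2 := by
  obtain ⟨x, hx⟩ : ∃ x : ℝ, x = u.re := ⟨_, rfl⟩
  obtain ⟨y, hy⟩ : ∃ y : ℝ, y = u.im := ⟨_, rfl⟩
  rw [← hy] at hpos
  have h2 : u ^ 2 = ⟨x ^ 2 - y ^ 2, 2 * x * y⟩ := by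
    apply Complex.ext
    · rw [hx, hy]; simp [pow_two]
    · rw [hx, hy]; simp [pow_two]; ring
  have h3 : u ^ 3 = ⟨x ^ 3 - 3 * x * y ^ 2, 3 * x ^ 2 * y - y ^ 3⟩ := by
    apply Complex.ext
    · rw [hx, hy]; simp [pow_succ]; ring
    · rw [hx, hy]; simp [pow_succ]; ring
  rw [h2, h3] at hcub
  have hre := congrArg Complex.re hcub
  have him := congrArg Complex.im hcub
  simp at hre him
  have hy2 : y ^ 2 = x * (3 * x - 2 * E) := by
    have h4 : y * (y ^ 2 - x * (3 * x - 2 * E)) = 0 := by linear_combination -him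
    have h5 := (mul_eq_zero.1 h4).resolve_left hpos.ne'
    linarith
  have hE : E = x * (2 * x - E) ^ 2 := by
    have h6 : y ^ 2 = 3 * x ^ 2 - 2 * x * E := by rw [hy2]; ring
    rw [h6] at hre
    linear_combination (1 / 2 : ℝ) * hre
  obtain ⟨s, hs⟩ : ∃ s : ℝ, s = 2 * x - E := ⟨_, rfl⟩
  rw [← hs] at hE
  have h7 : s = x * (2 - s ^ 2) := by linarith
  have h8 : y ^ 2 = x ^ 2 * (3 - 2 * s ^ 2) := by
    rw [hy2]
    have : 3 * x - 2 * E = 2 * s - x := by linarith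
    rw [this]
    linear_combination (2 * x) * h7
  have hyp : 0 < y ^ 2 := by positivity
  have hx0 : x ≠ 0 := by
    intro h
    rw [h8, h] at hyp
    simp at hyp
  have hxp : 0 < x ^ 2 := by positivity
  have hp : s ^ 2 < 3 / 2 := by
    by_contra hcon
    push Not at hcon
    have : x ^ 2 * (3 - 2 * s ^ 2) ≤ 0 := mul_nonpos_of_nonneg_of_nonpos hxp.le (by linarith)
    linarith
  constructor
  · intro h0
    rw [h0] at hE
    have h9 : s ^ 2 = 0 := (mul_eq_zero.1 hE.symm).resolve_left hx0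
    have h10 : s = 0 := by simpa using h9
    rw [h10] at h7
    simp at h7
    exact hx0 h7
  · have h9 : E ^ 2 * (2 - s ^ 2) ^ 2 = (s ^ 2) ^ 3 := by
      have e : E ^ 2 * (2 - s ^ 2) ^ 2 = (x * (2 - s ^ 2)) ^ 2 * (s ^ 2) ^ 2 := by
        rw [hE]; ring
      rw [e, ← h7]
      ring
    by_contra hcon
    push Not at hcon
    have h10 : (1 / 2 : ℝ) ≤ 2 - s ^ 2 := by linarith
    have h11 : (1 / 4 : ℝ) < (2 - s ^ 2) ^ 2 := by nlinarith
    have h12 : (s ^ 2) ^ 3 < 27 / 8 := by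
      have := pow_lt_pow_left₀ hp (sq_nonneg s) (n := 3) (by norm_num)
      norm_num at this ⊢
      linarith
    nlinarith

lemma of_mem {E : ℝ} (h : E ∈ Sigma1 mm mv) :
    (E : ℂ) ∈ spectrum ℂ T ∧ E ∈ Ioo (-cc) 0 ∪ Ioo 0 cc := by
  rw [mem_iff] at h
  obtain ⟨ξ, hξ, h⟩ := h
  obtain ⟨u, hu⟩ : ∃ u : ℂ, u = E + ∑ k, ξ k := ⟨_, rfl⟩
  have hu' : u = E + (ξ 0 + ξ 1) := by rw [hu, Fin.sum_univ_two]
  have h' : ∀ j, ξ j * (u - mv j) = -1 := by
    intro j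
    rw [hu]
    linear_combination h j
  have huim : u.im = (ξ 0).im + (ξ 1).im := by
    rw [hu']
    simp
  have hupos : 0 < u.im := by
    rw [huim]
    exact add_pos (hξ 0) (hξ 1)
  have hnorm : ∀ j, (ξ j).im = ‖ξ j‖ ^ 2 * u.im := by
    intro j
    have h1 : ((‖ξ j‖ ^ 2 : ℝ) : ℂ) * (u - mv j) = - conj (ξ j) := by
      have h2 : ((‖ξ j‖ ^ 2 : ℝ) : ℂ) = ξ j * conj (ξ j) := by
        rw [Complex.mul_conj, Complex.normSq_eq_norm_sq]
      rw [h2]
      linear_combination (conj (ξ j)) * h' j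
    have h2 := congrArg Complex.im h1
    rw [Complex.im_ofReal_mul, Complex.sub_im, Complex.ofReal_im, sub_zero, Complex.neg_im,
      Complex.conj_im, neg_neg] at h2
    exact h2.symm
  constructor
  · apply weyl E ξ _ h
    have h3 : (∑ b, ‖ξ b‖ ^ 2) * u.im = 1 * u.im := by
      rw [Finset.sum_mul, Fin.sum_univ_two, ← hnorm, ← hnorm, one_mul, huim]
    exact mul_right_cancel₀ hupos.ne' h3
  · have hcub : u ^ 3 - E * u ^ 2 + 2 * E = 0 := by
      have e0 := h' 0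
      have e1 := h' 1
      have m0 : ((mv 0 : ℝ) : ℂ) = ((√2 : ℝ) : ℂ) := rfl
      have m1 : ((mv 1 : ℝ) : ℂ) = -((√2 : ℝ) : ℂ) := by
        have : mv 1 = -√2 := rfl
        rw [this]
        push_cast
        rfl
      rw [m0] at e0
      rw [m1] at e1
      have hs := sq2
      have hE : (E : ℂ) = u - (ξ 0 + ξ 1) := by rw [hu']; ring
      rw [hE]
      linear_combination (u + ((√2 : ℝ) : ℂ)) * e0 + (u - ((√2 : ℝ) : ℂ)) * e1 +
        (ξ 0 + ξ 1) * hs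
    obtain ⟨hE0, hE2⟩ := real_ineq hupos hcub
    rw [← cc_sq] at hE2
    have h5 := abs_lt_of_sq_lt_sq hE2 cc_pos.le
    rw [abs_lt] at h5
    rcases lt_or_gt_of_ne hE0 with h6 | h6
    · exact Or.inl ⟨h5.1, h6⟩
    · exact Or.inr ⟨h6, h5.2⟩

lemma mem_of_cubic {E : ℝ} {u : ℂ} (hpos : 0 < u.im) (hcub : u ^ 3 - E * u ^ 2 + 2 * E = 0) :
    E ∈ Sigma1 mm mv := by
  rw [mem_iff]
  have hne : ∀ r : ℝ, u - r ≠ 0 := by
    intro r h
    have := congrArg Complex.im h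
    simp at this
    exact hpos.ne' this
  refine ⟨fun j => -(u - mv j)⁻¹, ?_, ?_⟩
  · intro j
    rw [Complex.neg_im, Complex.inv_im, neg_div, neg_neg]
    apply div_pos
    · simpa using hpos
    · rw [Complex.normSq_pos]
      exact hne _
  · have hs := sq2
    have m0 : ((mv 0 : ℝ) : ℂ) = ((√2 : ℝ) : ℂ) := rfl
    have m1 : ((mv 1 : ℝ) : ℂ) = -((√2 : ℝ) : ℂ) := by
      have : mv 1 = -√2 := rfl
      rw [this]
      push_cast
      rfl
    have hn0 := hne √2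
    have hn1 := hne (-√2)
    push_cast at hn1
    have hsum : (E : ℂ) + ∑ k, (-(u - mv k)⁻¹) = u := by
      rw [Fin.sum_univ_two, m0, m1]
      field_simp
      linear_combination -hcub + (u - E) * hs
    intro j
    have e : (-(u - mv j)⁻¹) * (E - mv j + ∑ k, (-(u - mv k)⁻¹)) + 1 =
        (-(u - mv j)⁻¹) * (E + ∑ k, (-(u - mv k)⁻¹) - mv j) + 1 := by ring
    rw [e, hsum, neg_mul, inv_mul_cancel₀ (hne _)]
    ring

lemma exists_root {E : ℝ} (h0 : 0 < E) (h1 : E < cc) :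
    ∃ u : ℂ, 0 < u.im ∧ u ^ 3 - E * u ^ 2 + 2 * E = 0 := by
  obtain ⟨r, hr⟩ : ∃ r : ℝ, r = √6 / 2 := ⟨_, rfl⟩
  have hr2 : r ^ 2 = 3 / 2 := by
    rw [hr, div_pow, sqrt_facts.1]
    norm_num
  have hrpos : 0 < r := by rw [hr]; positivity
  have hcr : cc = 3 * r := by rw [hr]; unfold cc; ring
  have hcont : ContinuousOn (fun s : ℝ => s ^ 3 + E * s ^ 2 - 2 * E) (Icc 0 r) := by
    fun_prop
  have hivt := intermediate_value_Ioo hrpos.le hcont
  have hmem : (0 : ℝ) ∈ Ioo ((fun s : ℝ => s ^ 3 + E * s ^ 2 - 2 * E) 0)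
      ((fun s : ℝ => s ^ 3 + E * s ^ 2 - 2 * E) r) := by
    constructor
    · simp only
      linarith
    · simp only
      have : r ^ 3 = r * (3 / 2) := by rw [← hr2]; ring
      rw [this, hr2]
      rw [hcr] at h1
      linarith
  obtain ⟨s, ⟨hs0, hs1⟩, hs⟩ := hivt hmem
  simp only at hs
  have hs2 : s ^ 2 < 3 / 2 := by
    rw [← hr2]
    exact pow_lt_pow_left₀ hs1 hs0.le (by norm_num)
  have hd : 0 < 2 - s ^ 2 := by linarith
  obtain ⟨x, hx⟩ : ∃ x : ℝ, x = s / (2 - s ^ 2) := ⟨_, rfl⟩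
  have hxs : x * (2 - s ^ 2) = s := by rw [hx]; field_simp
  have hxpos : 0 < x := by rw [hx]; positivity
  have hE : E = x * s ^ 2 := by
    have h3 : E * (2 - s ^ 2) = s ^ 3 := by linarith
    have h4 : x * s ^ 2 * (2 - s ^ 2) = s ^ 3 := by linear_combination (s ^ 2) * hxs
    exact mul_right_cancel₀ hd.ne' (h3.trans h4.symm)
  obtain ⟨w, hw⟩ : ∃ w : ℝ, w = √(3 - 2 * s ^ 2) := ⟨_, rfl⟩
  have hw2 : w ^ 2 = 3 - 2 * s ^ 2 := by rw [hw]; exact Real.sq_sqrt (by linarith)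
  have hwpos : 0 < w := by rw [hw]; exact Real.sqrt_pos.2 (by linarith)
  refine ⟨⟨x, x * w⟩, by positivity, ?_⟩
  have h2 : (⟨x, x * w⟩ : ℂ) ^ 2 = ⟨x ^ 2 - (x * w) ^ 2, 2 * x * (x * w)⟩ := by
    apply Complex.ext
    · simp [pow_two]
    · simp [pow_two]; ring
  have h3 : (⟨x, x * w⟩ : ℂ) ^ 3 =
      ⟨x ^ 3 - 3 * x * (x * w) ^ 2, 3 * x ^ 2 * (x * w) - (x * w) ^ 3⟩ := by
    apply Complex.ext
    · simp [pow_succ]; ring
    · simp [pow_succ]; ring
  rw [h2, h3]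
  apply Complex.ext
  · simp only [Complex.add_re, Complex.sub_re, Complex.re_ofReal_mul, Complex.zero_re]
    have h5 : (2 * (E : ℂ)).re = 2 * E := by simp
    rw [h5, hE, mul_pow, hw2]
    linear_combination (-2 * x * (x * (2 - s ^ 2) + s)) * hxs
  · simp only [Complex.add_im, Complex.sub_im, Complex.im_ofReal_mul, Complex.zero_im]
    have h5 : (2 * (E : ℂ)).im = 0 := by simp
    rw [h5, hE]
    have h6 : (x * w) ^ 3 = x ^ 3 * w * (3 - 2 * s ^ 2) := by rw [← hw2]; ring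
    rw [h6]
    ring

lemma sigma_eq : Sigma1 mm mv = Ioo (-cc) 0 ∪ Ioo 0 cc := by
  ext E
  constructor
  · intro h
    exact (of_mem h).2
  · rintro (⟨h1, h2⟩ | ⟨h1, h2⟩)
    · obtain ⟨u, hu, hcub⟩ := exists_root (E := -E) (by linarith) (by linarith)
      apply mem_of_cubic (u := -conj u)
      · simpa using hu
      · have h3 := congrArg conj hcub
        simp only [map_add, map_sub, map_mul, map_pow, Complex.conj_ofReal, map_zero,
          map_ofNat] at h3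
        push_cast at h3
        linear_combination -h3
    · obtain ⟨u, hu, hcub⟩ := exists_root h1 h2
      exact mem_of_cubic hu hcub

lemma spec_eq : spectrum ℂ T = (fun E : ℝ => (E : ℂ)) '' Icc (-cc) cc := by
  have hc := cc_pos
  apply Subset.antisymm
  · intro z hz
    obtain ⟨E, rfl, hE⟩ := spec_bound hz
    exact ⟨E, abs_le.1 hE, rfl⟩
  · rintro _ ⟨E, hE, rfl⟩
    have hcl : IsClosed {E : ℝ | (E : ℂ) ∈ spectrum ℂ T} :=
      (spectrum.isClosed T).preimage Complex.continuous_ofReal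
    have hsub : Ioo (-cc) 0 ∪ Ioo 0 cc ⊆ {E : ℝ | (E : ℂ) ∈ spectrum ℂ T} := by
      rw [← sigma_eq]
      intro E hE
      exact (of_mem hE).1
    have h2 := closure_minimal hsub hcl
    rw [closure_union, closure_Ioo (by linarith), closure_Ioo (by linarith)] at h2
    apply h2
    rcases le_total E 0 with h | h
    · exact Or.inl ⟨hE.1, h⟩
    · exact Or.inr ⟨h, hE.2⟩

/-! ## The tree -/

/-- The binary tree: vertices are finite words, the parent is the tail. -/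
def tree : RootedTree (List (Fin 2)) where
  root := []
  parent := List.tail
  parent_root := rfl
  reach := by
    intro x
    induction x with
    | nil => exact ⟨0, rfl⟩
    | cons b x ih =>
      obtain ⟨n, hn⟩ := ih
      exact ⟨n + 1, hn⟩

/-- The label of a word is its first letter. -/
def lab : List (Fin 2) → Fin 2
  | [] => 0
  | b :: _ => b

lemma isChild_iff (x y : List (Fin 2)) : tree.IsChild x y ↔ ∃ b, y = b :: x := by
  cases y with
  | nil => simp [RootedTree.IsChild, tree]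
  | cons c y =>
    simp only [RootedTree.IsChild, tree, ne_eq, reduceCtorEq, not_false_eq_true, List.tail_cons,
      true_and, List.cons.injEq, exists_eq_left']

lemma adj_nil (y : List (Fin 2)) : tree.Adj [] y ↔ ∃ b, y = [b] := by
  simp [RootedTree.Adj, isChild_iff]

lemma adj_cons (a : Fin 2) (x y : List (Fin 2)) :
    tree.Adj (a :: x) y ↔ y = x ∨ ∃ b, y = b :: a :: x := by
  simp only [RootedTree.Adj, isChild_iff, List.cons.injEq, exists_eq_left']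
  constructor
  · rintro (⟨b, h⟩ | h)
    · exact Or.inr ⟨b, h⟩
    · exact Or.inl h.symm
  · rintro (h | ⟨b, h⟩)
    · exact Or.inr h.symm
    · exact Or.inl ⟨b, h⟩

open Classical in
/-- The hopping terms. -/
noncomputable def tt (x y : List (Fin 2)) : ℂ := if tree.Adj x y then 1 else 0

lemma T_cons (φ : HH) (a : Fin 2) (x : List (Fin 2)) :
    (T φ) (a :: x) = φ x + (φ (0 :: a :: x) + φ (1 :: a :: x)) + mv a * φ (a :: x) := by
  rw [T_eq]
  simp only [Fin.sum_univ_two, lp.coeFn_add, Pi.add_apply, lp.coeFn_smul, Pi.smul_apply,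
    S_apply_cons, Sa_apply, dl_apply, smul_eq_mul]
  fin_cases a
  · simp
    ring
  · simp
    ring

lemma T_nil (φ : HH) : (T φ) [] = (φ [0] + φ [1]) + mv 0 * φ [] := by
  rw [T_eq]
  simp only [Fin.sum_univ_two, lp.coeFn_add, Pi.add_apply, lp.coeFn_smul, Pi.smul_apply,
    S_apply_nil, Sa_apply, dl_apply, smul_eq_mul]
  simp

lemma T_form (φ : HH) (x : List (Fin 2)) :
    (T φ) x = ∑' y, tt x y * φ y + mv (lab x) * φ x := by
  classical
  cases x with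
  | nil =>
    rw [T_nil]
    congr 1
    rw [tsum_eq_sum (s := {[0], [1]})]
    · rw [Finset.sum_pair (by simp)]
      simp [tt, adj_nil]
    · intro y hy
      simp only [Finset.mem_insert, Finset.mem_singleton, not_or] at hy
      have : ¬ tree.Adj [] y := by
        rw [adj_nil]
        rintro ⟨b, rfl⟩
        fin_cases b
        · exact hy.1 rfl
        · exact hy.2 rfl
      simp [tt, this]
  | cons a x =>
    rw [T_cons]
    have hx0 : ∀ b, x ≠ b :: a :: x := by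
      intro b h
      have := congrArg List.length h
      simp at this
      omega
    congr 1
    rw [tsum_eq_sum (s := {x, 0 :: a :: x, 1 :: a :: x})]
    · rw [Finset.sum_insert (by simp [hx0]), Finset.sum_pair (by simp)]
      simp [tt, adj_cons]
    · intro y hy
      simp only [Finset.mem_insert, Finset.mem_singleton, not_or] at hy
      have : ¬ tree.Adj (a :: x) y := by
        rw [adj_cons]
        rintro (rfl | ⟨b, rfl⟩)
        · exact hy.1 rfl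
        · fin_cases b
          · exact hy.2.1 rfl
          · exact hy.2.2 rfl
      simp [tt, this]

/-- **There is a label invariant operator for which `Σ₁` and the spectrum have different numbers
of connected components**: `Σ₁ = (-c,0) ∪ (0,c)`, while the spectrum is `[-c,c]`. -/
theorem result : ∃ (M : Matrix (Fin 2) (Fin 2) ℕ) (V : Type) (Tr : RootedTree V) (j : Fin 2)
    (a : V → Fin 2) (mm : Fin 2 → Fin 2 → ℝ) (mv : Fin 2 → ℝ) (T : l2 V →L[ℂ] l2 V) (c : ℝ),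
    Admissible M ∧ IsTreeOf Tr M j a ∧ IsLabelInvariant Tr M a mm mv T ∧ 0 < c ∧
    Sigma1 mm mv = Ioo (-c) 0 ∪ Ioo 0 c ∧
    spectrum ℂ T = (fun E : ℝ => (E : ℂ)) '' Icc (-c) c ∧
    ¬ IsPreconnected (Sigma1 mm mv) ∧ IsConnected (spectrum ℂ T) := by
  have hc := cc_pos
  refine ⟨Matrix.of fun _ _ => 1, List (Fin 2), tree, 0, lab, mm, mv, T, cc, ?_, ?_, ?_, hc,
    sigma_eq, spec_eq, ?_, ?_⟩
  · refine ⟨fun j => by simp, fun j => by simp, 1, fun j k => by simp⟩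
  · refine ⟨rfl, fun x l => ?_⟩
    have : {y | tree.IsChild x y ∧ lab y = l} = {l :: x} := by
      ext y
      simp only [mem_ofPred_eq, isChild_iff, mem_singleton_iff]
      constructor
      · rintro ⟨⟨b, rfl⟩, h⟩
        rw [← h]
        rfl
      · rintro rfl
        exact ⟨⟨l, rfl⟩, rfl⟩
    rw [this]
    simp
  · refine ⟨tt, fun x => mv (lab x), ?_, ?_, ?_, fun _ => rfl, T_form⟩
    · intro x y
      simp [tt]
    · intro x y
      have h : tree.Adj x y ↔ tree.Adj y x := by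
        unfold RootedTree.Adj
        exact or_comm
      unfold tt
      by_cases h2 : tree.Adj y x
      · rw [if_pos (h.2 h2), if_pos h2]
        simp
      · rw [if_neg (fun h3 => h2 (h.1 h3)), if_neg h2]
        simp
    · intro x y h
      simp [tt, h, mm]
  · rw [sigma_eq]
    intro h
    have h1 := h.ordConnected.out (x := -(cc / 2)) (y := cc / 2) ?_ ?_
    · have h2 : (0 : ℝ) ∈ Ioo (-cc) 0 ∪ Ioo 0 cc := h1 ⟨by linarith, by linarith⟩
      rcases h2 with h2 | h2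
      · exact lt_irrefl _ h2.2
      · exact lt_irrefl _ h2.1
    · exact Or.inl ⟨by linarith, by linarith⟩
    · exact Or.inr ⟨by linarith, by linarith⟩
  · rw [spec_eq]
    exact (isConnected_Icc (by linarith)).image _ Complex.continuous_ofReal.continuousOn

end Pool.Agent.Results.MP_750254_mp.ComponentsDiffer
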